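import Pool.Agent.Work.MP_2738db_nt_X.Interface
import Pool.Agent.Work.MP_2738db_nt_Z_helper23.SMZ

/-!
MP_2738db_nt, Theorem X: the block SMQ (Rankin bound for smooth numbers with the weight `1 / φ`).
-/

set_option autoImplicit false

namespace Pool.Agent.Work.MP_2738db_nt_X.helper37

open Finset
open Pool.Agent.Work.MP_2738db_nt_U.helper15 (rpow_le_34)
open Pool.Agent.Work.MP_2738db_nt_Z.helper23 (sum_inv_primes)

/-- the Euler product bound for finite sums over smooth numbers -/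
lemma smooth_sum (g : ℕ → ℝ) (hg0 : ∀ n, 0 ≤ g n) (hg1 : g 1 ≤ 1)
    (hmul : ∀ a b : ℕ, Nat.Coprime a b → g (a * b) = g a * g b) (G : ℕ → ℝ) (P : Finset ℕ) :
    (∀ p ∈ P, p.Prime) → (∀ p ∈ P, ∀ J : ℕ, ∑ j ∈ range J, g (p ^ j) ≤ G p) →
    (∀ p ∈ P, 0 ≤ G p) →
    ∀ F : Finset ℕ, (∀ s ∈ F, 0 < s ∧ ∀ p : ℕ, p.Prime → p ∣ s → p ∈ P) →
      ∑ s ∈ F, g s ≤ ∏ p ∈ P, G p := by
  classical
  induction P using Finset.induction_on with
  | empty =>
    intro _ _ _ F hF
    rw [prod_empty]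
    have h1 : F ⊆ {1} := by
      intro s hs
      rw [mem_singleton]
      by_contra hne
      obtain ⟨p, hp, hps⟩ := Nat.exists_prime_and_dvd hne
      exact absurd ((hF s hs).2 p hp hps) (by simp)
    calc ∑ s ∈ F, g s ≤ ∑ s ∈ {1}, g s := sum_le_sum_of_subset_of_nonneg h1 (fun i _ _ => hg0 i)
      _ = g 1 := sum_singleton _ _
      _ ≤ 1 := hg1
  | insert p P hpP ih =>
    intro hP hG hG0 F hF
    have hp : p.Prime := hP p (mem_insert_self _ _)
    rw [prod_insert hpP]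
    obtain ⟨J, hJ⟩ : ∃ J : ℕ, ∀ s ∈ F, s.factorization p < J :=
      ⟨(F.sup fun s => s.factorization p) + 1, fun s hs =>
        Nat.lt_succ_of_le (Finset.le_sup (f := fun s => s.factorization p) hs)⟩
    set F' : Finset ℕ := F.image (fun s => s / p ^ s.factorization p) with hF'
    have ihF : ∑ s ∈ F', g s ≤ ∏ q ∈ P, G q := by
      apply ih (fun q hq => hP q (mem_insert_of_mem hq)) (fun q hq => hG q (mem_insert_of_mem hq))
        (fun q hq => hG0 q (mem_insert_of_mem hq))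
      intro s' hs'
      rw [hF', mem_image] at hs'
      obtain ⟨s, hs, rfl⟩ := hs'
      have hs0 : s ≠ 0 := (hF s hs).1.ne'
      refine ⟨Nat.ordCompl_pos p hs0, ?_⟩
      intro q hq hqs
      have h1 : q ∣ s := hqs.trans (Nat.ordCompl_dvd s p)
      have h2 := (hF s hs).2 q hq h1
      rw [mem_insert] at h2
      rcases h2 with h2 | h2
      · exfalso
        rw [h2] at hqs
        exact (Nat.not_dvd_ordCompl hp hs0) hqs
      · exact h2
    have hinj : Set.InjOn (fun s : ℕ => ((s.factorization p, s / p ^ s.factorization p) : ℕ × ℕ))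
        (F : Set ℕ) := by
      intro s hs t ht h
      rw [Prod.mk.injEq] at h
      have h1 := Nat.ordProj_mul_ordCompl_eq_self s p
      have h2 := Nat.ordProj_mul_ordCompl_eq_self t p
      rw [← h1, ← h2, h.2, h.1]
    have hval : ∀ s ∈ F, g s = (fun x : ℕ × ℕ => g (p ^ x.1) * g x.2)
        (s.factorization p, s / p ^ s.factorization p) := by
      intro s hs
      have hs0 : s ≠ 0 := (hF s hs).1.ne'
      have h1 := Nat.ordProj_mul_ordCompl_eq_self s p
      have h2 : Nat.Coprime (p ^ s.factorization p) (s / p ^ s.factorization p) :=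
        (Nat.coprime_ordCompl hp hs0).pow_left _
      show g s = g (p ^ s.factorization p) * g (s / p ^ s.factorization p)
      rw [← hmul _ _ h2, h1]
    calc ∑ s ∈ F, g s
        = ∑ s ∈ F, (fun x : ℕ × ℕ => g (p ^ x.1) * g x.2)
            (s.factorization p, s / p ^ s.factorization p) := sum_congr rfl hval
      _ = ∑ x ∈ F.image (fun s : ℕ => ((s.factorization p, s / p ^ s.factorization p) : ℕ × ℕ)),
            (fun x : ℕ × ℕ => g (p ^ x.1) * g x.2) x := by
          rw [sum_image hinj]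
      _ ≤ ∑ x ∈ range J ×ˢ F', (fun x : ℕ × ℕ => g (p ^ x.1) * g x.2) x := by
          apply sum_le_sum_of_subset_of_nonneg
          · intro x hx
            rw [mem_image] at hx
            obtain ⟨s, hs, rfl⟩ := hx
            rw [mem_product]
            exact ⟨mem_range.mpr (hJ s hs), mem_image.mpr ⟨s, hs, rfl⟩⟩
          · intro x _ _
            exact mul_nonneg (hg0 _) (hg0 _)
      _ = (∑ j ∈ range J, g (p ^ j)) * ∑ s ∈ F', g s := by
          rw [sum_product, sum_mul_sum]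
      _ ≤ G p * ∏ q ∈ P, G q := by
          apply mul_le_mul (hG p (mem_insert_self _ _) J) ihF
          · exact sum_nonneg (fun i _ => hg0 i)
          · exact hG0 p (mem_insert_self _ _)

/-- the weight -/
noncomputable def wt (σ : ℝ) (s : ℕ) : ℝ := (s : ℝ) ^ σ / (s.totient : ℝ)

lemma wt_mul (σ : ℝ) (a b : ℕ) (h : Nat.Coprime a b) : wt σ (a * b) = wt σ a * wt σ b := by
  unfold wt
  rw [Nat.totient_mul h]
  push_cast
  rw [Real.mul_rpow (by positivity) (by positivity)]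
  rw [mul_div_mul_comm]

lemma wt_prime (σ : ℝ) (hσ : σ ≤ 1 / 2) (p : ℕ) (hp : p.Prime)
    (hpe : (p : ℝ) ^ σ ≤ 2.72) (J : ℕ) :
    ∑ j ∈ range J, wt σ (p ^ j) ≤ Real.exp (22 * (p : ℝ)⁻¹) := by
  have hp2 : (2 : ℝ) ≤ p := by exact_mod_cast hp.two_le
  have hp0 : (0 : ℝ) < p := by linarith
  have hr := rpow_le_34 (1 - σ) (by linarith) p hp.two_le
  set r : ℝ := (p : ℝ) ^ (-(1 - σ)) with hrdef
  have hr0 : 0 ≤ r := by positivity
  have hrp : r * p = (p : ℝ) ^ σ := by
    rw [hrdef]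
    nth_rewrite 2 [← Real.rpow_one (p : ℝ)]
    rw [← Real.rpow_add hp0]
    congr 1
    ring
  have hterm : ∀ j : ℕ, wt σ (p ^ (j + 1)) = r ^ j * ((p : ℝ) ^ σ / (p - 1)) := by
    intro j
    unfold wt
    rw [Nat.totient_prime_pow hp (Nat.succ_pos j), Nat.succ_sub_one]
    push_cast
    rw [Nat.cast_sub hp.one_lt.le, Nat.cast_one]
    have h1 : ((p : ℝ) ^ (j + 1)) ^ σ = (r * p) ^ (j + 1) := by
      rw [hrp, ← Real.rpow_natCast, ← Real.rpow_natCast, ← Real.rpow_mul hp0.le,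
        ← Real.rpow_mul hp0.le, mul_comm]
    rw [h1, ← hrp]
    have h2 : (p : ℝ) - 1 ≠ 0 := by linarith
    rw [pow_succ (r * p), mul_pow]
    field_simp
  have hgeo : ∀ m : ℕ, ∑ j ∈ range m, r ^ j ≤ 4 := by
    intro m
    rw [geom_sum_eq (by linarith), ← neg_div_neg_eq, neg_sub, neg_sub, div_le_iff₀ (by linarith)]
    have : 0 ≤ r ^ m := by positivity
    linarith
  have h22 : (p : ℝ) ^ σ / (p - 1) * 4 ≤ 22 * (p : ℝ)⁻¹ := by
    rw [← div_eq_mul_inv, div_mul_eq_mul_div, div_le_div_iff₀ (by linarith) hp0]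
    have h3 : 0 ≤ (p : ℝ) ^ σ := by positivity
    nlinarith
  have hexp := Real.add_one_le_exp (22 * (p : ℝ)⁻¹)
  cases J with
  | zero =>
    rw [range_zero, sum_empty]
    exact (Real.exp_pos _).le
  | succ m =>
    rw [sum_range_succ']
    have h0 : wt σ (p ^ 0) = 1 := by
      unfold wt
      simp
    rw [h0, sum_congr rfl (fun j _ => hterm j), ← sum_mul]
    have h4 : (∑ j ∈ range m, r ^ j) * ((p : ℝ) ^ σ / (p - 1)) ≤
        4 * ((p : ℝ) ^ σ / (p - 1)) := by
      apply mul_le_mul_of_nonneg_right (hgeo m)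
      apply div_nonneg (by positivity) (by linarith)
    linarith

/-- explicit version -/
lemma main (t κ s : ℝ) (J : ℕ) (hs : 1 ≤ s) (hκ : 0 < κ) (ht : 0 < t) (hJ : 2 * s ≤ 2 ^ J)
    (F : Finset ℕ) (hF : ∀ n ∈ F, 0 < n ∧ Real.exp (κ * t) ≤ n ∧
      ∀ p : ℕ, p.Prime → p ∣ n → (p : ℝ) ≤ Real.exp (2 * s)) :
    ∑ n ∈ F, 1 / (n.totient : ℝ) ≤ Real.exp (22 * (2 + 3.4 * J) - κ * t / (2 * s)) := by
  classical
  set σ : ℝ := 1 / (2 * s) with hσ
  have hσ0 : 0 ≤ σ := by positivity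
  have hσ1 : σ ≤ 1 / 2 := by
    rw [hσ]
    exact one_div_le_one_div_of_le (by norm_num) (by linarith)
  set P : Finset ℕ := (Ioc 0 ⌊Real.exp ((2 : ℝ) ^ J)⌋₊).filter
    (fun p => p.Prime ∧ (p : ℝ) ≤ Real.exp (2 * s)) with hPdef
  have hP : ∀ p ∈ P, p.Prime := by
    intro p hp
    rw [hPdef, mem_filter] at hp
    exact hp.2.1
  have hpe : ∀ p ∈ P, (p : ℝ) ^ σ ≤ 2.72 := by
    intro p hp
    rw [hPdef, mem_filter] at hp
    have h1 : (p : ℝ) ^ σ ≤ (Real.exp (2 * s)) ^ σ :=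
      Real.rpow_le_rpow (by positivity) hp.2.2 hσ0
    rw [← Real.exp_mul, hσ, mul_one_div_cancel (by positivity)] at h1
    have := Real.exp_one_lt_d9
    rw [hσ]
    linarith
  have h1 := smooth_sum (wt σ) (fun n => by unfold wt; positivity) (by unfold wt; simp)
    (wt_mul σ) (fun p => Real.exp (22 * (p : ℝ)⁻¹)) P hP
    (fun p hp J' => wt_prime σ hσ1 p (hP p hp) (hpe p hp) J') (fun p _ => (Real.exp_pos _).le) F
    (by
      intro n hn
      refine ⟨(hF n hn).1, ?_⟩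
      intro p hp hpn
      have h2 := (hF n hn).2.2 p hp hpn
      rw [hPdef, mem_filter, mem_Ioc]
      refine ⟨⟨hp.pos, ?_⟩, hp, h2⟩
      apply Nat.le_floor
      exact h2.trans (Real.exp_le_exp.mpr hJ))
  rw [← Real.exp_sum, ← mul_sum] at h1
  have h2 : ∑ p ∈ P, (p : ℝ)⁻¹ ≤ 2 + 3.4 * J := by
    refine le_trans ?_ (sum_inv_primes J)
    apply sum_le_sum_of_subset_of_nonneg
    · intro p hp
      rw [hPdef, mem_filter] at hp
      rw [mem_filter]
      exact ⟨hp.1, hp.2.1⟩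
    · intro p _ _
      positivity
  have h3 : ∑ n ∈ F, wt σ n ≤ Real.exp (22 * (2 + 3.4 * J)) :=
    h1.trans (Real.exp_le_exp.mpr (by linarith))
  have h4 : ∀ n ∈ F, 1 / (n.totient : ℝ) ≤ Real.exp (-(κ * t / (2 * s))) * wt σ n := by
    intro n hn
    have hn0 : (0 : ℝ) < n := by exact_mod_cast (hF n hn).1
    have h5 : Real.exp (κ * t / (2 * s)) ≤ (n : ℝ) ^ σ := by
      calc Real.exp (κ * t / (2 * s)) = (Real.exp (κ * t)) ^ σ := by
            rw [← Real.exp_mul, hσ, mul_one_div]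
        _ ≤ (n : ℝ) ^ σ := Real.rpow_le_rpow (Real.exp_pos _).le (hF n hn).2.1 hσ0
    unfold wt
    rw [Real.exp_neg, ← mul_div_assoc]
    apply div_le_div_of_nonneg_right _ (by positivity)
    rw [inv_mul_eq_div, one_le_div (Real.exp_pos _)]
    exact h5
  calc ∑ n ∈ F, 1 / (n.totient : ℝ) ≤ ∑ n ∈ F, Real.exp (-(κ * t / (2 * s))) * wt σ n :=
        sum_le_sum h4
    _ = Real.exp (-(κ * t / (2 * s))) * ∑ n ∈ F, wt σ n := by rw [mul_sum]
    _ ≤ Real.exp (-(κ * t / (2 * s))) * Real.exp (22 * (2 + 3.4 * J)) :=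
        mul_le_mul_of_nonneg_left h3 (Real.exp_pos _).le
    _ = Real.exp (22 * (2 + 3.4 * J) - κ * t / (2 * s)) := by
        rw [← Real.exp_add]
        congr 1
        ring

theorem stmt_SMQ : Stmt_Smq := by
  intro η κ hη0 hη1 hκ
  -- asymptotics
  have hη2 : 0 < η / 2 := by linarith
  have e1 : ∀ᶠ t : ℝ in Filter.atTop, Real.log t ≤ (κ / 2400) * t ^ η := by
    have h := (isLittleO_log_rpow_atTop hη0).bound (show (0 : ℝ) < κ / 2400 by positivity)
    filter_upwards [h, Filter.eventually_gt_atTop 1] with t ht ht1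
    have h1 : 0 ≤ Real.log t := Real.log_nonneg ht1.le
    have h2 : 0 ≤ t ^ η := by positivity
    rw [Real.norm_of_nonneg h1, Real.norm_of_nonneg h2] at ht
    exact ht
  have e2 : ∀ᶠ t : ℝ in Filter.atTop, (8 / κ) ≤ t ^ (η / 2) :=
    (tendsto_rpow_atTop hη2).eventually_ge_atTop _
  have e3 : ∀ᶠ t : ℝ in Filter.atTop, (2400 / κ) ≤ t ^ η :=
    (tendsto_rpow_atTop hη0).eventually_ge_atTop _
  obtain ⟨T, hT⟩ := Filter.eventually_atTop.mp
    (e1.and (e2.and (e3.and (Filter.eventually_ge_atTop (3 : ℝ)))))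
  refine ⟨T, fun t ht F hF => ?_⟩
  obtain ⟨c1, c2, c3, c4⟩ := hT t ht
  have ht0 : 0 < t := by linarith
  obtain ⟨s, hs⟩ : ∃ s : ℝ, s = t ^ (1 - η) := ⟨_, rfl⟩
  have hs1 : 1 ≤ s := by
    rw [hs]
    exact Real.one_le_rpow (by linarith) (by linarith)
  have hst : s * t ^ η = t := by
    rw [hs, ← Real.rpow_add ht0]; norm_num
  have hs_le : s ≤ t := by
    rw [hs]
    calc t ^ (1 - η) ≤ t ^ (1 : ℝ) := Real.rpow_le_rpow_of_exponent_le (by linarith) (by linarith)
      _ = t := Real.rpow_one t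
  obtain ⟨J, hJ⟩ : ∃ J : ℕ, J = ⌈Real.log (2 * s) / Real.log 2⌉₊ := ⟨_, rfl⟩
  have hl2 : 0 < Real.log 2 := Real.log_pos (by norm_num)
  have hJ1 : 2 * s ≤ 2 ^ J := by
    have h2 : Real.log (2 * s) / Real.log 2 ≤ J := by rw [hJ]; exact Nat.le_ceil _
    rw [div_le_iff₀ hl2, ← Real.log_pow] at h2
    rwa [Real.log_le_log_iff (by positivity) (by positivity)] at h2
  have hls : 0 ≤ Real.log (2 * s) := Real.log_nonneg (by linarith)
  have hJ2 : (J : ℝ) ≤ 2 + 2 * Real.log t := by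
    have h3 : (J : ℝ) < Real.log (2 * s) / Real.log 2 + 1 := by
      rw [hJ]
      exact Nat.ceil_lt_add_one (by positivity)
    have h4 : Real.log (2 * s) = Real.log 2 + Real.log s := Real.log_mul (by norm_num) (by linarith)
    have h5 : Real.log s ≤ Real.log t := Real.log_le_log (by linarith) hs_le
    have h6 : 0 ≤ Real.log s := Real.log_nonneg hs1
    have h7 : Real.log s / Real.log 2 ≤ 2 * Real.log t := by
      rw [div_le_iff₀ hl2]
      have h8 := Real.log_two_gt_d9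
      nlinarith
    rw [h4, add_div, div_self hl2.ne'] at h3
    linarith
  rw [← hs] at hF
  refine (main t κ s J hs1 hκ ht0 hJ1 F hF).trans (Real.exp_le_exp.mpr ?_)
  have h9 : κ * t / (2 * s) = κ / 2 * t ^ η := by
    have h10 : κ * t / (2 * s) = κ * (s * t ^ η) / (2 * s) := by rw [hst]
    rw [h10]
    field_simp
  rw [h9]
  -- t ^ (η/2) ≤ κ / 8 * t ^ η
  have h11 : t ^ (η / 2) ≤ κ / 8 * t ^ η := by
    have h12 : t ^ η = t ^ (η / 2) * t ^ (η / 2) := by
      rw [← Real.rpow_add ht0]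
      congr 1
      ring
    have h13 : 0 < t ^ (η / 2) := by positivity
    rw [h12]
    have h14 : 1 ≤ κ / 8 * t ^ (η / 2) := by
      have := mul_le_mul_of_nonneg_left c2 (show (0 : ℝ) ≤ κ / 8 by positivity)
      have h15 : κ / 8 * (8 / κ) = 1 := by field_simp
      linarith
    nlinarith
  have h16 : 1 ≤ κ / 2400 * t ^ η := by
    have := mul_le_mul_of_nonneg_left c3 (show (0 : ℝ) ≤ κ / 2400 by positivity)
    have h15 : κ / 2400 * (2400 / κ) = 1 := by field_simp
    linarith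
  linarith

end Pool.Agent.Work.MP_2738db_nt_X.helper37
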